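import Mathlib

namespace Pool.Agent.H.MP_840660_pr

open Finset

abbrev V := ℤ × ℤ

def ad (x y : V) : Prop := (x.1 - y.1).natAbs + (x.2 - y.2).natAbs = 1

instance : DecidableRel ad := fun x y => by unfold ad; infer_instance

def M (x y : V) : ℤ := if x = y then -1 else if ad x y then 1 else 0

noncomputable def B (T : Finset V) (f g : V → ℝ) : ℝ := ∑ p ∈ T, ∑ q ∈ T, f p * (M p q : ℝ) * g q

lemma ad_symm {x y : V} (h : ad x y) : ad y x := by unfold ad at *; omega

lemma ad_irr (x : V) : ¬ ad x x := by unfold ad; omega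

lemma ad_par {x y : V} (h : ad x y) : (x.1 + x.2 + y.1 + y.2) % 2 = 1 := by unfold ad at h; omega

lemma M_symm (x y : V) : M x y = M y x := by
  unfold M
  by_cases h : x = y
  · subst h; rfl
  · rw [if_neg h, if_neg (Ne.symm h)]
    by_cases h2 : ad x y
    · rw [if_pos h2, if_pos (ad_symm h2)]
    · rw [if_neg h2, if_neg (fun h3 => h2 (ad_symm h3))]

lemma M_self (x : V) : M x x = -1 := by simp [M]

lemma M_ad {x y : V} (h : ad x y) : M x y = 1 := by
  have : x ≠ y := fun e => ad_irr x (by rw [e] at h ⊢; exact h)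
  simp [M, this, h]

lemma M_no {x y : V} (h : x ≠ y) (h2 : ¬ ad x y) : M x y = 0 := by simp [M, h, h2]

lemma B_symm (T : Finset V) (f g : V → ℝ) : B T f g = B T g f := by
  unfold B
  rw [Finset.sum_comm]
  refine Finset.sum_congr rfl fun p _ => Finset.sum_congr rfl fun q _ => ?_
  rw [M_symm q p]; ring

lemma B_sub {S T : Finset V} (h : S ⊆ T) (f : V → ℝ) (hf : ∀ x ∈ T, x ∉ S → f x = 0) :
    B T f f = B S f f := by
  unfold B
  rw [← Finset.sum_subset h]
  · refine Finset.sum_congr rfl fun p _ => ?_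
    rw [← Finset.sum_subset h]
    intro q hq hqS; rw [hf q hq hqS]; ring
  · intro p hp hpS
    refine Finset.sum_eq_zero fun q _ => ?_
    rw [hf p hp hpS]; ring

lemma B_add (T : Finset V) (f g : V → ℝ) (s : ℝ) :
    B T (fun p => f p + s * g p) (fun p => f p + s * g p) = B T f f + 2 * s * B T f g + s ^ 2 * B T g g := by
  have h1 : B T (fun p => f p + s * g p) (fun p => f p + s * g p) =
      B T f f + s * B T f g + s * B T g f + s ^ 2 * B T g g := by
    unfold B
    simp only [Finset.mul_sum, ← Finset.sum_add_distrib]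
    refine Finset.sum_congr rfl fun p _ => Finset.sum_congr rfl fun q _ => ?_
    ring
  rw [h1, B_symm T g f]; ring

def vv : Fin 4 → Fin 8 → V :=
  ![![(0,0),(1,0),(1,1),(0,1),(1,-1),(0,-1),(2,0),(-1,0)],
    ![(0,0),(-1,0),(-1,1),(0,1),(-1,-1),(0,-1),(-2,0),(1,0)],
    ![(0,0),(0,1),(1,1),(1,0),(-1,1),(-1,0),(0,2),(0,-1)],
    ![(0,0),(0,-1),(1,-1),(1,0),(-1,-1),(-1,0),(0,-2),(0,1)]]

def M0 : Fin 8 → Fin 8 → ℤ := fun i j => M (vv 0 i) (vv 0 j)

lemma M_vv : ∀ k i j, M (vv k i) (vv k j) = M0 i j := by decide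

lemma vv_inj : ∀ k i j, vv k i = vv k j → i = j := by decide

lemma M_tr (x a b : V) : M (x + a) (x + b) = M a b := by
  unfold M ad
  simp only [add_right_inj, Prod.fst_add, Prod.snd_add, add_sub_add_left_eq_sub]

lemma eight (u : Fin 8 → ℝ) (hu : ∀ i, 0 ≤ u i) :
    ∑ i, ∑ j, u i * (M0 i j : ℝ) * u j ≤ (∑ i, u i) ^ 2 / 4 := by
  have hM : M0 = ![![-1,1,0,1,0,1,0,1], ![1,-1,1,0,1,0,1,0], ![0,1,-1,1,0,0,0,0],
      ![1,0,1,-1,0,0,0,0], ![0,1,0,0,-1,1,0,0], ![1,0,0,0,1,-1,0,0], ![0,1,0,0,0,0,-1,0],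
      ![1,0,0,0,0,0,0,-1]] := by decide
  rw [hM]
  simp only [Fin.sum_univ_eight]
  simp
  have h6 := hu 6
  have h7 := hu 7
  nlinarith [sq_nonneg (u 0 + u 1 - (u 2 + u 3 + u 4 + u 5 + u 6 + u 7)),
    sq_nonneg ((u 0 - u 1) / 2 - (u 3 - u 2)), sq_nonneg ((u 0 - u 1) / 2 - (u 5 - u 4)),
    sq_nonneg ((u 0 - u 1) / 2 - (u 7 - u 6)), sq_nonneg (u 0 - u 1), mul_nonneg h6 h7]

lemma terminal (T : Finset V) (x y : V) (hxy : ad x y) (hT : ∀ z ∈ T, ad z x ∨ ad z y)
    (f : V → ℝ) (hf : ∀ p, 0 ≤ f p) : B T f f ≤ (∑ p ∈ T, f p) ^ 2 / 4 := by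
  obtain ⟨k, hk⟩ : ∃ k, ∀ z ∈ T, ∃ i, z = x + vv k i := by
    have : ∃ k, y = x + vv k 1 := by
      obtain ⟨x1, x2⟩ := x
      obtain ⟨y1, y2⟩ := y
      unfold ad at hxy
      simp only [Fin.exists_fin_succ, vv]
      simp at hxy ⊢
      omega
    obtain ⟨k, rfl⟩ := this
    refine ⟨k, fun z hz => ?_⟩
    have h := hT z hz
    obtain ⟨x1, x2⟩ := x
    obtain ⟨z1, z2⟩ := z
    unfold ad at h
    fin_cases k <;> simp [Fin.exists_fin_succ, vv] at h ⊢ <;> omega
  classical
  set P : Finset V := Finset.univ.image (fun i => x + vv k i) with hP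
  have hTP : T ⊆ P := fun z hz => by
    obtain ⟨i, hi⟩ := hk z hz
    exact Finset.mem_image.2 ⟨i, Finset.mem_univ _, hi.symm⟩
  set g : V → ℝ := fun p => if p ∈ T then f p else 0 with hg
  have hinj : Set.InjOn (fun i => x + vv k i) (Finset.univ : Finset (Fin 8)) :=
    fun i _ j _ h => vv_inj k i j (add_left_cancel h)
  have e1 : B T f f = B P g g := by
    rw [B_sub hTP g (fun z _ hz => by simp [hg, hz])]
    unfold B
    refine Finset.sum_congr rfl fun p hp => Finset.sum_congr rfl fun q hq => ?_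
    simp [hg, hp, hq]
  have e2 : ∑ p ∈ T, f p = ∑ p ∈ P, g p := by
    rw [← Finset.sum_subset hTP (f := g) (fun z _ hz => by simp [hg, hz])]
    exact Finset.sum_congr rfl fun p hp => by simp [hg, hp]
  rw [e1, e2]
  unfold B
  rw [hP, Finset.sum_image hinj, Finset.sum_image hinj]
  simp only [Finset.sum_image hinj, M_tr, M_vv]
  refine eight (fun i => g (x + vv k i)) fun i => ?_
  simp only [hg]; split_ifs
  · exact hf _
  · exact le_rfl

lemma centre (T : Finset V) (hne : T.Nonempty) (hiso : ∀ z ∈ T, ∃ w ∈ T, ad z w)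
    (h2 : ∀ x ∈ T, ∀ y ∈ T, ∀ z ∈ T, ∀ w ∈ T, ad x y → ad z w →
      ad x z ∨ ad x w ∨ ad y z ∨ ad y w) :
    ∃ x y, ad x y ∧ ∀ z ∈ T, ad z x ∨ ad z y := by
  classical
  set E : Finset (V × V) := (T ×ˢ T).filter (fun e => ad e.1 e.2) with hE
  have hEne : E.Nonempty := by
    obtain ⟨z, hz⟩ := hne
    obtain ⟨w, hw, hzw⟩ := hiso z hz
    exact ⟨(z, w), by simp [hE, hz, hw, hzw]⟩
  set dg : V → ℕ := fun v => (T.filter (fun u => ad u v)).card with hdg
  obtain ⟨⟨x, y⟩, hxy, hmax⟩ := E.exists_max_image (fun e => dg e.1 + dg e.2) hEne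
  have hxy' : (x ∈ T ∧ y ∈ T) ∧ ad x y := by simpa [hE] using hxy
  obtain ⟨⟨hx, hy⟩, hadj⟩ := hxy'
  have key : ∀ a ∈ T, ∀ b ∈ T, ∀ z ∈ T, ∀ w ∈ T, ad a b → ad z w → ¬ ad z b → ad w a →
      dg b < dg w := by
    intro a ha b hb z hz w hw hab hzw hzb hwa
    apply Finset.card_lt_card
    refine ⟨fun u hu => ?_, fun hsub => ?_⟩
    · rw [Finset.mem_filter] at hu ⊢
      refine ⟨hu.1, ?_⟩
      have p1 := ad_par hab
      have p2 := ad_par hzw
      have p3 := ad_par hwa
      have p4 := ad_par hu.2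
      rcases h2 u hu.1 b hb z hz w hw hu.2 hzw with h | h | h | h
      · have := ad_par h; omega
      · exact h
      · exact absurd (ad_symm h) hzb
      · have := ad_par h; omega
    · have : z ∈ T.filter (fun u => ad u b) := hsub (Finset.mem_filter.2 ⟨hz, hzw⟩)
      exact hzb (Finset.mem_filter.1 this).2
  refine ⟨x, y, hadj, fun z hz => ?_⟩
  by_contra hcon
  rw [not_or] at hcon
  obtain ⟨w, hw, hzw⟩ := hiso z hz
  rcases h2 x hx y hy z hz w hw hadj hzw with h | h | h | h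
  · exact hcon.1 (ad_symm h)
  · have h1 := key x hx y hy z hz w hw hadj hzw hcon.2 (ad_symm h)
    have h3 := hmax (x, w) (by simp [hE, hx, hw, h])
    simp only at h3
    omega
  · exact hcon.2 (ad_symm h)
  · have h1 := key y hy x hx z hz w hw (ad_symm hadj) hzw hcon.1 (ad_symm h)
    have h3 := hmax (w, y) (by simp [hE, hy, hw, ad_symm h])
    simp only at h3
    omega

noncomputable def dir (x y z w : V) : V → ℝ := fun p =>
  (if p = x then 1 else 0) + (if p = y then 1 else 0) - (if p = z then 1 else 0) - (if p = w then 1 else 0)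

lemma dir_sum {T : Finset V} {x y z w : V} (hx : x ∈ T) (hy : y ∈ T) (hz : z ∈ T) (hw : w ∈ T)
    (g : V → ℝ) : ∑ p ∈ T, dir x y z w p * g p = g x + g y - g z - g w := by
  simp [dir, add_mul, sub_mul, Finset.sum_add_distrib, Finset.sum_sub_distrib, hx, hy, hz, hw]

lemma shift (T : Finset V) (ih : ∀ S ⊂ T, ∀ f : V → ℝ, (∀ p, 0 ≤ f p) → B S f f ≤ (∑ p ∈ S, f p) ^ 2 / 4)
    {x y z w : V} (hx : x ∈ T) (hy : y ∈ T) (hz : z ∈ T) (hw : w ∈ T) (hxy : ad x y) (hzw : ad z w)
    (h1 : ¬ ad x z) (h2 : ¬ ad x w) (h3 : ¬ ad y z) (h4 : ¬ ad y w)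
    (f : V → ℝ) (hf : ∀ p, 0 ≤ f p) (hB : 0 ≤ B T f (dir x y z w)) (hle : f z ≤ f w) :
    B T f f ≤ (∑ p ∈ T, f p) ^ 2 / 4 := by
  have nxz : x ≠ z := fun e => h2 (by rw [e]; exact hzw)
  have nxw : x ≠ w := fun e => h1 (by rw [e]; exact ad_symm hzw)
  have nyz : y ≠ z := fun e => h4 (by rw [e]; exact hzw)
  have nyw : y ≠ w := fun e => h3 (by rw [e]; exact ad_symm hzw)
  have nzw : z ≠ w := fun e => ad_irr z (by rw [e] at hzw ⊢; exact hzw)
  have hdd : B T (dir x y z w) (dir x y z w) = 0 := by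
    unfold B
    have : ∀ p ∈ T, ∑ q ∈ T, dir x y z w p * (M p q : ℝ) * dir x y z w q =
        dir x y z w p * ((M p x : ℝ) + M p y - M p z - M p w) := by
      intro p _
      rw [← dir_sum hx hy hz hw (fun q => (M p q : ℝ)), Finset.mul_sum]
      exact Finset.sum_congr rfl fun q _ => by ring
    rw [Finset.sum_congr rfl this, dir_sum hx hy hz hw]
    rw [M_symm y x, M_symm z x, M_symm z y, M_symm w x, M_symm w y, M_symm w z]
    rw [M_self, M_self, M_self, M_self, M_ad hxy, M_ad hzw, M_no nxz h1, M_no nxw h2, M_no nyz h3,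
      M_no nyw h4]
    norm_num
  set g : V → ℝ := fun p => f p + f z * dir x y z w p with hg
  have hg0 : ∀ p, 0 ≤ g p := by
    intro p
    have := hf p
    have := hf z
    simp only [hg, dir]
    by_cases e1 : p = z
    · subst e1
      simp [nxz.symm, nyz.symm, nzw]
    · by_cases e2 : p = w
      · subst e2
        simp [nxw.symm, nyw.symm, nzw.symm, hle]
      · simp only [if_neg e1, if_neg e2]
        split_ifs <;> nlinarith
  have hgz : g z = 0 := by simp [hg, dir, nxz.symm, nyz.symm, nzw]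
  have hsum : ∑ p ∈ T, g p = ∑ p ∈ T, f p := by
    simp only [hg, Finset.sum_add_distrib, ← Finset.mul_sum]
    have := dir_sum hx hy hz hw (fun _ => (1 : ℝ))
    simp only [mul_one] at this
    rw [this]; ring
  have e1 : B T g g = B T f f + 2 * f z * B T f (dir x y z w) := by
    rw [hg, B_add, hdd]; ring
  have e2 : B T g g = B (T.erase z) g g :=
    B_sub (Finset.erase_subset _ _) g fun p hp hp2 => by
      have : p = z := by simpa [hp] using hp2
      rw [this, hgz]
  have e3 := ih (T.erase z) (Finset.erase_ssubset hz) g hg0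
  rw [Finset.sum_erase _ hgz, hsum] at e3
  have := mul_nonneg (hf z) hB
  nlinarith

lemma dir_neg (x y z w : V) : dir z w x y = fun p => -dir x y z w p := by
  funext p; unfold dir; ring

lemma dir_swap (x y z w : V) : dir x y w z = dir x y z w := by
  funext p; unfold dir; ring

lemma B_neg (T : Finset V) (f g : V → ℝ) : B T f (fun p => -g p) = -B T f g := by
  unfold B
  simp [Finset.sum_neg_distrib]

theorem main (T : Finset V) : ∀ f : V → ℝ, (∀ p, 0 ≤ f p) → B T f f ≤ (∑ p ∈ T, f p) ^ 2 / 4 := by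
  classical
  induction T using Finset.strongInduction with
  | H T ih =>
  intro f hf
  by_cases hiso : ∀ z ∈ T, ∃ w ∈ T, ad z w
  swap
  · push Not at hiso
    obtain ⟨z, hz, hz2⟩ := hiso
    have e3 := ih (T.erase z) (Finset.erase_ssubset hz) f hf
    have e1 : B T f f = B (T.erase z) f f - f z ^ 2 := by
      unfold B
      rw [← Finset.add_sum_erase T _ hz, ← Finset.add_sum_erase T _ hz, M_self]
      have a1 : ∑ q ∈ T.erase z, f z * (M z q : ℝ) * f q = 0 :=
        Finset.sum_eq_zero fun q hq => by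
          rw [M_no (Finset.ne_of_mem_erase hq).symm (hz2 q (Finset.mem_of_mem_erase hq))]; simp
      have a2 : ∀ p ∈ T.erase z, ∑ q ∈ T, f p * (M p q : ℝ) * f q =
          ∑ q ∈ T.erase z, f p * (M p q : ℝ) * f q := by
        intro p hp
        rw [← Finset.add_sum_erase T _ hz, M_symm p z,
          M_no (Finset.ne_of_mem_erase hp).symm (hz2 p (Finset.mem_of_mem_erase hp))]
        simp
      rw [a1, Finset.sum_congr rfl a2]
      push_cast; ring
    have e2 : ∑ p ∈ T, f p = f z + ∑ p ∈ T.erase z, f p := (Finset.add_sum_erase T _ hz).symm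
    have e4 : 0 ≤ ∑ p ∈ T.erase z, f p := Finset.sum_nonneg fun p _ => hf p
    rw [e1, e2]
    nlinarith [hf z, mul_nonneg (hf z) e4]
  by_cases h2 : ∀ x ∈ T, ∀ y ∈ T, ∀ z ∈ T, ∀ w ∈ T, ad x y → ad z w →
      ad x z ∨ ad x w ∨ ad y z ∨ ad y w
  · rcases T.eq_empty_or_nonempty with rfl | hne
    · simp [B]
    obtain ⟨x, y, hxy, hT⟩ := centre T hne hiso h2
    exact terminal T x y hxy hT f hf
  push Not at h2
  obtain ⟨x, hx, y, hy, z, hz, w, hw, hxy, hzw, h1, h2, h3, h4⟩ := h2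
  have s : ∀ {a b : V}, ¬ ad a b → ¬ ad b a := fun h h' => h (ad_symm h')
  rcases le_total 0 (B T f (dir x y z w)) with hB | hB
  · rcases le_total (f z) (f w) with hle | hle
    · exact shift T ih hx hy hz hw hxy hzw h1 h2 h3 h4 f hf hB hle
    · exact shift T ih hx hy hw hz hxy (ad_symm hzw) h2 h1 h4 h3 f hf (by rw [dir_swap]; exact hB) hle
  · have hB' : 0 ≤ B T f (dir z w x y) := by rw [dir_neg, B_neg]; linarith
    rcases le_total (f x) (f y) with hle | hle
    · exact shift T ih hz hw hx hy hzw hxy (s h1) (s h3) (s h2) (s h4) f hf hB' hle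
    · exact shift T ih hz hw hy hx hzw (ad_symm hxy) (s h3) (s h1) (s h4) (s h2) f hf
        (by rw [dir_swap]; exact hB') hle

end Pool.Agent.H.MP_840660_pr
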